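import Pool.Agent.SGY.Stmts
import Pool.Agent.Helper56_SGP.CTR
import Pool.Agent.Helper81_SGP.Cone

/-!
# Squad SGY, row DE3 (helper64): the case in which the corner `a` has one inner neighbour
-/

set_option autoImplicit false

noncomputable section

namespace Pool.Agent.SGY.H64

open Pool.Agent.SGE Pool.Agent.SGP Pool.Agent.SGY
open Pool.Agent.SGP.H56 (con_split con_succ contour_nb two)

theorem con_nil {V : Type} {x y : V} (h : Con ([] : List V) x y) : False := by
  obtain ⟨P, Q, h⟩ := h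
  have h2 := congrArg List.length h
  simp at h2

theorem con_tail {V : Type} {a x y : V} {L : List V} (h : Con (a :: L) x y) (hx : x ≠ a)
    (hy : y ≠ a) : Con L x y := by
  have h' : Con ([] ++ a :: L) x y := h
  rcases con_split h' hx hy with h1 | h1
  · exact (con_nil h1).elim
  · exact h1

theorem con_first {V : Type} {a y : V} {L : List V} (hn : (a :: L).Nodup)
    (h : Con (a :: L) y a) : False := by
  have ha : a ∉ L := (List.nodup_cons.1 hn).1
  obtain ⟨P, Q, h⟩ := h
  cases P with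
  | nil =>
    simp only [List.nil_append, List.cons.injEq] at h
    apply ha
    rw [h.2]
    simp
  | cons p P =>
    simp only [List.cons_append, List.cons.injEq] at h
    apply ha
    rw [h.2]
    simp

theorem con_second {V : Type} {a s x : V} {L : List V} (hn : (a :: s :: L).Nodup)
    (h : Con (a :: s :: L) a x) : x = s := by
  have hn' : ([] ++ a :: s :: L).Nodup := hn
  have h' : Con ([] ++ a :: s :: L) a x := h
  exact con_succ hn' h'

theorem de3 (hMap : MapStmt) : De3Stmt := by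
  classical
  intro V _ a b c s M U E F h
  have hnd := h.nt1.nd
  have haL : a ∉ s :: (M ++ b :: []) := (List.nodup_cons.1 hnd).1
  have hsa : s ≠ a := by
    rintro rfl
    exact haL List.mem_cons_self
  have hab : a ≠ b := h.nt.ab
  have hac : a ≠ c := by
    have := h.nt.nd
    simp only [List.nodup_cons, List.mem_cons, not_or] at this
    exact this.1.1
  have haU : a ∉ U := h.uo a (by simp)
  have hsU : s ∉ U := h.uo s (by simp)
  have hbU : b ∉ U := h.uo b (by simp)
  have hcU := h.uc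
  have hbc : b ≠ c := h.wc
  have hsb := h.sb
  have hsc := h.sc
  have ns' : ∀ x, offE (rE E c) U s x ↔ x = a ∨ x = b := by
    intro x
    rw [h.ns x]
    simp
  have fs' : ∀ x y, offF (rF F c) U x y s → Con [a, b] x y := fun x y hxy => h.fs x y hxy
  have nt4' : NT a b [a, b] (rE (offE (rE E c) U) s) (rF (offF (rF F c) U) s) := h.nt4
  have nt3 := h.nt3
  obtain ⟨Z, hZ⟩ : ∃ Z, Z = s :: (M ++ [b]) := ⟨_, rfl⟩
  have hZs : s ∈ Z := by rw [hZ]; simp
  have hZb : b ∈ Z := by rw [hZ]; simp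
  have hZM : ∀ x ∈ M, x ∈ Z := by
    intro x hx
    rw [hZ]
    simp [hx]
  have hZU : ∀ x ∈ Z, x ∈ U ∨ x = s ∨ x = b := by
    intro x hx
    rw [hZ] at hx
    simp only [List.mem_cons, List.mem_append, List.not_mem_nil, or_false] at hx
    rcases hx with h1 | h1 | h1
    · exact Or.inr (Or.inl h1)
    · exact Or.inl (h.uM x h1)
    · exact Or.inr (Or.inr h1)
  rw [← hZ] at nt3
  have hcZ : c ∉ Z := by
    intro hc
    obtain ⟨y, hy⟩ := contour_nb nt3 hc
    exact hy.1.2.1 rfl
  have haZ : a ∉ Z := by rw [hZ]; exact haL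
  have N5 := Pool.Agent.SGP.H81.con (c := c) nt3 (fun x hx => hx.1.2.1 rfl) hcZ
  obtain ⟨E3, hE3⟩ : ∃ E3, E3 = onE (rE E c) (U ∪ {s, b}) := ⟨_, rfl⟩
  obtain ⟨F3, hF3⟩ : ∃ F3, F3 = onF (rF F c) (U ∪ {s, b}) := ⟨_, rfl⟩
  rw [← hE3, ← hF3] at N5
  have hE3' : ∀ x y, E3 x y ↔ (E x y ∧ x ≠ c ∧ y ≠ c) ∧ (x ∈ U ∨ x = s ∨ x = b) ∧
      (y ∈ U ∨ y = s ∨ y = b) := by
    intro x y
    rw [hE3]
    rfl
  have hF3' : ∀ x y z, F3 x y z ↔ (F x y z ∧ x ≠ c ∧ y ≠ c ∧ z ≠ c) ∧
      (x ∈ U ∨ x = s ∨ x = b) ∧ (y ∈ U ∨ y = s ∨ y = b) ∧ (z ∈ U ∨ z = s ∨ z = b) := by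
    intro x y z
    rw [hF3]
    rfl
  have NM := hMap N5 (Equiv.swap s a)
  have s1 : Equiv.swap s a s = a := Equiv.swap_apply_left s a
  have s2 : Equiv.swap s a b = b := Equiv.swap_apply_of_ne_of_ne hsb.symm hab.symm
  have s3 : Equiv.swap s a c = c := Equiv.swap_apply_of_ne_of_ne hsc.symm hac.symm
  have s4 : Equiv.swap s a a = s := Equiv.swap_apply_right s a
  have sU : ∀ x ∈ U, Equiv.swap s a x = x := by
    intro x hx
    apply Equiv.swap_apply_of_ne_of_ne
    · rintro rfl; exact hsU hx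
    · rintro rfl; exact haU hx
  have hsymm : (Equiv.swap s a).symm = Equiv.swap s a := Equiv.symm_swap s a
  have hinv : ∀ x, Equiv.swap s a (Equiv.swap s a x) = x := by
    intro x
    have h1 := (Equiv.swap s a).symm_apply_apply x
    rw [hsymm] at h1
    exact h1
  rw [List.map_cons, List.map_cons, List.map_cons, List.map_nil, s1, s2, s3, hsymm] at NM
  have hcE : ∀ x y, cE E3 c Z x y ↔ E3 x y ∨ (x = c ∧ y ∈ Z) ∨ (y = c ∧ x ∈ Z) := fun _ _ =>
    Iff.rfl
  have hEca : E c a := (h.nc a).2 (by simp)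
  have hEcc : ∀ x, E c x → x = a ∨ x = s ∨ x = b ∨ x ∈ M := by
    intro x hx
    have h1 := (h.nc x).1 hx
    simp only [List.mem_cons, List.mem_append, List.not_mem_nil, or_false] at h1
    tauto
  refine ⟨fun x y => cE E3 c Z (Equiv.swap s a x) (Equiv.swap s a y),
    fun x y z => cF F3 c Z (Equiv.swap s a x) (Equiv.swap s a y) (Equiv.swap s a z),
    NM, hsa, hsb, hsc, ?_, ?_, ?_, ?_⟩
  · -- iso
    intro x hx
    rw [s1, hcE, hE3'] at hx
    rcases hx with ⟨_, h1, _⟩ | ⟨h1, _⟩ | ⟨_, h1⟩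
    · rcases h1 with h1 | h1 | h1
      · exact haU h1
      · exact hsa h1.symm
      · exact hab h1
    · exact hac h1
    · exact haZ h1
  · -- rel
    intro x
    have hrel : ∀ z, cE E3 c Z (Equiv.swap s a x) z → Rel (fun x y =>
        cE E3 c Z (Equiv.swap s a x) (Equiv.swap s a y)) x := by
      intro z hz
      refine ⟨Equiv.swap s a z, ?_⟩
      beta_reduce
      rw [hinv]
      exact hz
    constructor
    · rintro ⟨y, hy⟩
      by_cases xs : x = s
      · exact Or.inl xs
      right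
      by_cases xa : x = a
      · apply hrel c
        rw [xa, s4]
        exact Or.inr (Or.inr ⟨rfl, hZs⟩)
      by_cases xb : x = b
      · apply hrel c
        rw [xb, s2]
        exact Or.inr (Or.inr ⟨rfl, hZb⟩)
      by_cases xc : x = c
      · apply hrel s
        rw [xc, s3]
        exact Or.inr (Or.inl ⟨rfl, hZs⟩)
      by_cases xU : x ∈ U
      · by_cases yc : y = c
        · apply hrel c
          rw [sU x xU]
          rw [yc] at hy
          rcases hEcc x (h.nt.sym _ _ hy) with h1 | h1 | h1 | h1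
          · exact absurd h1 xa
          · exact absurd h1 xs
          · exact absurd h1 xb
          · exact Or.inr (Or.inr ⟨rfl, hZM x h1⟩)
        · apply hrel y
          rw [sU x xU]
          left
          rw [hE3']
          refine ⟨⟨hy, xc, yc⟩, Or.inl xU, ?_⟩
          rcases h.ucl x xU y hy with h1 | h1 | h1 | h1
          · exact Or.inl h1
          · exact Or.inr (Or.inl h1)
          · exact Or.inr (Or.inr h1)
          · exact absurd h1 yc
      · exfalso
        by_cases yc : y = c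
        · rw [yc] at hy
          rcases hEcc x (h.nt.sym _ _ hy) with h1 | h1 | h1 | h1
          · exact xa h1
          · exact xs h1
          · exact xb h1
          · exact xU (h.uM x h1)
        by_cases yU : y ∈ U
        · rcases h.ucl y yU x (h.nt.sym _ _ hy) with h1 | h1 | h1 | h1
          · exact xU h1
          · exact xs h1
          · exact xb h1
          · exact xc h1
        by_cases ys : y = s
        · rw [ys] at hy
          rcases (ns' x).1 ⟨⟨h.nt.sym _ _ hy, hsc, xc⟩, hsU, xU⟩ with h1 | h1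
          · exact xa h1
          · exact xb h1
        · rcases two nt4' (⟨⟨⟨hy, xc, yc⟩, xU, yU⟩, xs, ys⟩ :
            rE (offE (rE E c) U) s x y) with h1 | h1
          · exact xa h1
          · exact xb h1
    · rintro (rfl | ⟨y, hy⟩)
      · exact ⟨b, h.sw⟩
      obtain ⟨u, hu⟩ : ∃ u, u = Equiv.swap s a x := ⟨_, rfl⟩
      have hxu : x = Equiv.swap s a u := by rw [hu, hinv]
      rw [← hu, hcE, hE3'] at hy
      have h1 : u ∈ U ∨ u = s ∨ u = b ∨ u = c := by
        rcases hy with ⟨_, h1, _⟩ | ⟨h1, _⟩ | ⟨_, h1⟩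
        · rcases h1 with h1 | h1 | h1
          · exact Or.inl h1
          · exact Or.inr (Or.inl h1)
          · exact Or.inr (Or.inr (Or.inl h1))
        · exact Or.inr (Or.inr (Or.inr h1))
        · rcases hZU u h1 with h1 | h1 | h1
          · exact Or.inl h1
          · exact Or.inr (Or.inl h1)
          · exact Or.inr (Or.inr (Or.inl h1))
      rcases h1 with h1 | h1 | h1 | h1
      · rw [hxu, sU u h1]
        exact h.ur u h1
      · rw [hxu, h1, s1]
        exact ⟨c, h.nt.sym _ _ hEca⟩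
      · rw [hxu, h1, s2]
        exact ⟨s, h.nt.sym _ _ h.sw⟩
      · rw [hxu, h1, s3]
        exact ⟨a, hEca⟩
  · -- f0
    intro x y z hF xa ya za
    have hren : ∀ t, t ≠ a → Equiv.swap s a (ren s a t) = t := by
      intro t ht
      unfold ren
      split_ifs with h1
      · rw [s4, h1]
      · exact Equiv.swap_apply_of_ne_of_ne h1 ht
    rw [hren x xa, hren y ya, hren z za]
    have hcase : ∀ x y, F x y c → x ≠ a → y ≠ a → Con Z x y := by
      intro x y h1 h2 h3
      rw [hZ]
      exact con_tail (h.fc x y h1) h2 h3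
    by_cases zc : z = c
    · rw [zc] at hF
      exact Or.inr (Or.inl ⟨hcase x y hF xa ya, zc⟩)
    by_cases xc : x = c
    · rw [xc] at hF
      exact Or.inr (Or.inr (Or.inl ⟨hcase y z (h.nt.rot _ _ _ hF) ya za, xc⟩))
    by_cases yc : y = c
    · rw [yc] at hF
      exact Or.inr (Or.inr (Or.inr ⟨hcase z x (h.nt.rot _ _ _ (h.nt.rot _ _ _ hF)) za xa, yc⟩))
    left
    rw [hF3']
    have e1 : E x y := h.nt.fe _ _ _ hF
    have e2 : E y z := h.nt.fe _ _ _ (h.nt.rot _ _ _ hF)
    have e3 : E z x := h.nt.fe _ _ _ (h.nt.rot _ _ _ (h.nt.rot _ _ _ hF))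
    have hcl : ∀ u ∈ U, ∀ v, E u v → v ≠ c → (v ∈ U ∨ v = s ∨ v = b) := by
      intro u hu v huv hv
      rcases h.ucl u hu v huv with h1 | h1 | h1 | h1
      · exact Or.inl h1
      · exact Or.inr (Or.inl h1)
      · exact Or.inr (Or.inr h1)
      · exact absurd h1 hv
    refine ⟨⟨hF, xc, yc, zc⟩, ?_⟩
    by_cases xU : x ∈ U
    · exact ⟨Or.inl xU, hcl x xU y e1 yc, hcl x xU z (h.nt.sym _ _ e3) zc⟩
    by_cases yU : y ∈ U
    · exact ⟨hcl y yU x (h.nt.sym _ _ e1) xc, Or.inl yU, hcl y yU z e2 zc⟩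
    by_cases zU : z ∈ U
    · exact ⟨hcl z zU x e3 xc, hcl z zU y (h.nt.sym _ _ e2) yc, Or.inl zU⟩
    exfalso
    have hfs : ∀ x y, F x y s → x ≠ c → y ≠ c → x ∉ U → y ∉ U → x = a := by
      intro x y h1 h2 h3 h4 h5
      have h6 := fs' x y ⟨⟨h1, h2, h3, hsc⟩, h4, h5, hsU⟩
      exact ((Pool.Agent.SGP.H81.con_pair a b x y).1 h6).1
    by_cases zs : z = s
    · rw [zs] at hF
      exact xa (hfs x y hF xc yc xU yU)
    by_cases xs : x = s
    · rw [xs] at hF
      exact ya (hfs y z (h.nt.rot _ _ _ hF) yc zc yU zU)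
    by_cases ys : y = s
    · rw [ys] at hF
      exact za (hfs z x (h.nt.rot _ _ _ (h.nt.rot _ _ _ hF)) zc xc zU xU)
    have h4 : ∀ x y, E x y → x ≠ c → y ≠ c → x ∉ U → y ∉ U → x ≠ s → y ≠ s →
        x = a ∨ x = b := fun x y h1 h2 h3 h4 h5 h6 h7 =>
      two nt4' (⟨⟨⟨h1, h2, h3⟩, h4, h5⟩, h6, h7⟩ : rE (offE (rE E c) U) s x y)
    have xb : x = b := (h4 x y e1 xc yc xU yU xs ys).resolve_left xa
    have yb : y = b := (h4 y z e2 yc zc yU zU ys zs).resolve_left ya
    rw [xb, yb] at e1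
    exact h.nt.irr _ e1
  · -- f1
    intro x y hF
    have e1 : E x y := h.nt.fe _ _ _ hF
    have e2 : E y a := h.nt.fe _ _ _ (h.nt.rot _ _ _ hF)
    have e3 : E a x := h.nt.fe _ _ _ (h.nt.rot _ _ _ (h.nt.rot _ _ _ hF))
    have hUa : ∀ u, E u a → u ∉ U := by
      intro u hu hU
      rcases h.ucl u hU a hu with h1 | h1 | h1 | h1
      · exact haU h1
      · exact hsa h1.symm
      · exact hab h1
      · exact hac h1
    have xU : x ∉ U := hUa x (h.nt.sym _ _ e3)
    have yU : y ∉ U := hUa y e2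
    by_cases xc : x = c
    · exfalso
      rw [xc] at hF
      exact con_first hnd (h.fc y a (h.nt.rot _ _ _ hF))
    by_cases yc : y = c
    · rw [yc] at hF
      have h1 := h.fc a x (h.nt.rot _ _ _ (h.nt.rot _ _ _ hF))
      exact Or.inr ⟨con_second hnd h1, yc⟩
    have hnd2 : [a, b].Nodup := nt4'.nd
    by_cases xs : x = s
    · exfalso
      rw [xs] at hF
      have h1 : offF (rF F c) U y a s :=
        ⟨⟨h.nt.rot _ _ _ hF, yc, hac, hsc⟩, yU, haU, hsU⟩
      exact con_first hnd2 (fs' y a h1)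
    by_cases ys : y = s
    · left
      rw [ys] at hF
      have h1 : offF (rF F c) U a x s :=
        ⟨⟨h.nt.rot _ _ _ (h.nt.rot _ _ _ hF), hac, xc, hsc⟩, haU, xU, hsU⟩
      exact ⟨((Pool.Agent.SGP.H81.con_pair a b a x).1 (fs' a x h1)).2, ys⟩
    exfalso
    have h4 : ∀ x y, E x y → x ≠ c → y ≠ c → x ∉ U → y ∉ U → x ≠ s → y ≠ s →
        x = a ∨ x = b := fun x y h1 h2 h3 h4 h5 h6 h7 =>
      two nt4' (⟨⟨⟨h1, h2, h3⟩, h4, h5⟩, h6, h7⟩ : rE (offE (rE E c) U) s x y)
    have xa : x ≠ a := by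
      rintro rfl
      exact h.nt.irr _ e3
    have ya : y ≠ a := by
      rintro rfl
      exact h.nt.irr _ e2
    have xb : x = b := (h4 x y e1 xc yc xU yU xs ys).resolve_left xa
    have yb : y = b := (h4 y a e2 yc hac yU haU ys hsa.symm).resolve_left ya
    rw [xb, yb] at e1
    exact h.nt.irr _ e1

end Pool.Agent.SGY.H64
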